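import Mathlib

/-!
# Primitive recursiveness of the arithmetic of the integers
-/

set_option autoImplicit false

namespace Pool.Agent.Y926.Ent

theorem enc_nat (n : ℕ) : Encodable.encode (n : ℤ) = 2 * n := rfl

theorem enc_neg (n : ℕ) : Encodable.encode (Int.negSucc n) = 2 * n + 1 := rfl

theorem enc_natAbs (z : ℤ) : z.natAbs = (Encodable.encode z + 1) / 2 := by
  cases z with
  | ofNat n =>
    change n = (2 * n + 1) / 2
    omega
  | negSucc n =>
    change n + 1 = (2 * n + 1 + 1) / 2
    omega

theorem enc_sign (z : ℤ) : decide (z < 0) = decide (Encodable.encode z % 2 = 1) := by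
  cases z with
  | ofNat n =>
    have h1 : ¬ (Int.ofNat n < 0) := by simp
    have h2 : ¬ (Encodable.encode (Int.ofNat n) % 2 = 1) := by
      change ¬ (2 * n % 2 = 1)
      omega
    rw [decide_eq_decide]
    exact iff_of_false h1 h2
  | negSucc n =>
    have h1 : Int.negSucc n < 0 := Int.negSucc_lt_zero n
    have h2 : Encodable.encode (Int.negSucc n) % 2 = 1 := by
      change (2 * n + 1) % 2 = 1
      omega
    rw [decide_eq_decide]
    exact iff_of_true h1 h2

theorem prim_natAbs : Primrec Int.natAbs := by
  have h : Primrec (fun z : ℤ => (Encodable.encode z + 1) / 2) :=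
    Primrec.nat_div.comp (Primrec.succ.comp Primrec.encode) (Primrec.const 2)
  exact h.of_eq fun z => (enc_natAbs z).symm

theorem prim_sign : Primrec (fun z : ℤ => decide (z < 0)) := by
  have h0 : PrimrecPred (fun z : ℤ => Encodable.encode z % 2 = 1) :=
    Primrec.eq.comp (Primrec.nat_mod.comp Primrec.encode (Primrec.const 2)) (Primrec.const 1)
  have h : Primrec (fun z : ℤ => decide (Encodable.encode z % 2 = 1)) := h0.decide
  exact h.of_eq fun z => (enc_sign z).symm

/-- the integer with the given sign and absolute value -/
def mkInt (p : Bool × ℕ) : ℤ := if p.1 = true then -(p.2 : ℤ) else p.2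

theorem prim_mkInt : Primrec mkInt := by
  rw [← Primrec.encode_iff]
  have h : Primrec (fun p : Bool × ℕ => if p.1 = true then 2 * p.2 - 1 else 2 * p.2) :=
    Primrec.ite (Primrec.eq.comp Primrec.fst (Primrec.const true))
      (Primrec.nat_sub.comp (Primrec.nat_mul.comp (Primrec.const 2) Primrec.snd) (Primrec.const 1))
      (Primrec.nat_mul.comp (Primrec.const 2) Primrec.snd)
  refine h.of_eq fun p => ?_
  obtain ⟨b, n⟩ := p
  cases b
  · rfl
  · cases n with
    | zero => rfl
    | succ n =>
      change 2 * (n + 1) - 1 = Encodable.encode (Int.negSucc n)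
      rw [enc_neg]
      omega

theorem prim_neg : Primrec (fun z : ℤ => -z) := by
  have h := prim_mkInt.comp (Primrec.pair (Primrec.not.comp prim_sign) prim_natAbs)
  refine h.of_eq fun z => ?_
  unfold mkInt
  by_cases hz : z < 0
  · simp only [hz, decide_true, Bool.not_true, Bool.false_eq_true, if_false]
    omega
  · simp only [hz, decide_false, Bool.not_false, if_true]
    omega

theorem prim_mul : Primrec₂ (fun a b : ℤ => a * b) := by
  have h : Primrec (fun p : ℤ × ℤ => mkInt (xor (decide (p.1 < 0)) (decide (p.2 < 0)),
      p.1.natAbs * p.2.natAbs)) := by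
    refine prim_mkInt.comp (Primrec.pair ?_ ?_)
    · exact (Primrec.dom_bool₂ xor).comp (prim_sign.comp Primrec.fst) (prim_sign.comp Primrec.snd)
    · exact Primrec.nat_mul.comp (prim_natAbs.comp Primrec.fst) (prim_natAbs.comp Primrec.snd)
  refine h.of_eq fun p => ?_
  obtain ⟨a, b⟩ := p
  unfold mkInt
  rcases lt_or_ge a 0 with ha | ha <;> rcases lt_or_ge b 0 with hb | hb
  · have h1 : decide (a < 0) = true := by simpa using ha
    have h2 : decide (b < 0) = true := by simpa using hb
    simp only [h1, h2, Bool.xor_self, Bool.false_eq_true, if_false]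
    push_cast
    rw [abs_of_neg ha, abs_of_neg hb]
    ring
  · have h1 : decide (a < 0) = true := by simpa using ha
    have h2 : decide (b < 0) = false := by simpa using hb
    simp only [h1, h2, Bool.xor_false, if_true]
    push_cast
    rw [abs_of_neg ha, abs_of_nonneg hb]
    ring
  · have h1 : decide (a < 0) = false := by simpa using ha
    have h2 : decide (b < 0) = true := by simpa using hb
    simp only [h1, h2, Bool.false_xor, if_true]
    push_cast
    rw [abs_of_nonneg ha, abs_of_neg hb]
    ring
  · have h1 : decide (a < 0) = false := by simpa using ha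
    have h2 : decide (b < 0) = false := by simpa using hb
    simp only [h1, h2, Bool.xor_self, Bool.false_eq_true, if_false]
    push_cast
    rw [abs_of_nonneg ha, abs_of_nonneg hb]

end Pool.Agent.Y926.Ent
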