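import Pool.Agent.Helper344.Ent.Defs
import Pool.Agent.Helper344.Ent.P_evalP_ops
import Pool.Agent.Y926.Ent.IntPrim

/-!
# One equation instead of a system
-/

set_option autoImplicit false

namespace Pool.Agent.Y926.Ent

open Pool.Agent.Helper344.Ent

/-- `f² = t g²` has only the zero solution in entire functions of one variable. -/
theorem sq1 {f g : ℂ → ℂ} (hf : Differentiable ℂ f) (hg : Differentiable ℂ g)
    (h : ∀ t, f t ^ 2 = t * g t ^ 2) : ∀ t, g t = 0 := by
  have hfa : AnalyticAt ℂ f 0 := hf.analyticAt 0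
  have hga : AnalyticAt ℂ g 0 := hg.analyticAt 0
  by_contra hne
  push Not at hne
  obtain ⟨t0, ht0⟩ := hne
  have hgt : analyticOrderAt g 0 ≠ ⊤ := by
    intro htop
    rw [analyticOrderAt_eq_top] at htop
    have hA : AnalyticOnNhd ℂ g Set.univ := fun z _ => hg.analyticAt z
    have hB : AnalyticOnNhd ℂ (fun _ : ℂ => (0 : ℂ)) Set.univ := fun z _ => analyticAt_const
    have := AnalyticOnNhd.eq_of_eventuallyEq hA hB htop
    exact ht0 (congrFun this t0)
  have h1 : f ^ 2 = (fun t : ℂ => t - 0) * g ^ 2 := by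
    funext t
    simp [h t]
  have h2 : analyticOrderAt (f ^ 2) 0 = 2 • analyticOrderAt f 0 := analyticOrderAt_pow hfa 2
  have h4 : AnalyticAt ℂ (fun t : ℂ => t - 0) 0 := by fun_prop
  have h3 : analyticOrderAt ((fun t : ℂ => t - 0) * g ^ 2) 0 = 1 + 2 • analyticOrderAt g 0 := by
    rw [analyticOrderAt_mul h4 (hga.pow 2), analyticOrderAt_id_sub_const_self,
      analyticOrderAt_pow hga]
  rw [h1, h3] at h2
  obtain ⟨k, hk⟩ := ENat.ne_top_iff_exists.1 hgt
  rw [← hk] at h2
  by_cases hft : analyticOrderAt f 0 = ⊤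
  · rw [hft] at h2
    have h5 : (1 + 2 • (k : ℕ∞)) = ((1 + 2 * k : ℕ) : ℕ∞) := by push_cast; simp
    have h6 : (2 • (⊤ : ℕ∞)) = ⊤ := by simp
    rw [h5, h6] at h2
    exact ENat.natCast_ne_top _ h2
  · obtain ⟨l, hl⟩ := ENat.ne_top_iff_exists.1 hft
    rw [← hl] at h2
    have h5 : (1 + 2 • (k : ℕ∞)) = ((1 + 2 * k : ℕ) : ℕ∞) := by push_cast; simp
    have h6 : (2 • (l : ℕ∞)) = ((2 * l : ℕ) : ℕ∞) := by push_cast; simp
    rw [h5, h6] at h2
    have h7 : 1 + 2 * k = 2 * l := by exact_mod_cast h2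
    omega

/-- `f² = z_i g²` has only the zero solution in entire functions of several variables. -/
theorem sqn {n : ℕ} (i : Fin n) {f g : (Fin n → ℂ) → ℂ} (hf : Differentiable ℂ f)
    (hg : Differentiable ℂ g) (h : ∀ z, f z ^ 2 = z i * g z ^ 2) :
    (∀ z, f z = 0) ∧ ∀ z, g z = 0 := by
  have h0 : ∀ z, g z = 0 := by
    intro z
    have hl : Differentiable ℂ (fun t : ℂ => Function.update z i t) := by
      refine differentiable_pi.2 fun j => ?_
      by_cases hj : j = i
      · subst hj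
        simp only [Function.update_self]
        exact differentiable_id
      · simp only [Function.update_of_ne hj]
        exact differentiable_const _
    have h1 := sq1 (hf.comp hl) (hg.comp hl) (fun t => by
      have := h (Function.update z i t)
      simpa using this) (z i)
    simpa using h1
  refine ⟨fun z => ?_, h0⟩
  have h1 := h z
  rw [h0 z] at h1
  simpa using h1

/-- `p² - z_1 c²` -/
def csq (p c : Pol) : Pol := padd (pmul p p) (pneg (pmul (pvar 0) (pmul c c)))

/-- one polynomial for a list -/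
def comb (l : List Pol) : Pol := l.foldr csq []

theorem evalP_csq (ρ : ℕ → ℂ) (p c : Pol) :
    evalP ρ (csq p c) = evalP ρ p ^ 2 - ρ 0 * evalP ρ c ^ 2 := by
  unfold csq
  rw [(evalP_ops ρ (pmul p p) (pneg (pmul (pvar 0) (pmul c c))) 0).1,
    (evalP_ops ρ (pmul (pvar 0) (pmul c c)) [] 0).2.1, (evalP_ops ρ p p 0).2.2.1,
    (evalP_ops ρ (pvar 0) (pmul c c) 0).2.2.1, (evalP_ops ρ c c 0).2.2.1,
    (evalP_ops ρ c c 0).2.2.2.1]
  ring

theorem evalP_diff {n : ℕ} (ρ : ℕ → (Fin n → ℂ) → ℂ) (hρ : ∀ j, Differentiable ℂ (ρ j))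
    (p : Pol) : Differentiable ℂ (fun z => evalP (fun j => ρ j z) p) := by
  have hprod : ∀ l : List ℕ, Differentiable ℂ fun z => (l.map (fun j => ρ j z)).prod := by
    intro l
    induction l with
    | nil => simp
    | cons a l ih =>
      simp only [List.map_cons, List.prod_cons]
      exact (hρ a).mul ih
  unfold evalP
  induction p with
  | nil => simp
  | cons m p ih =>
    simp only [List.map_cons, List.sum_cons]
    exact ((differentiable_const _).mul (hprod m.2)).add ih

theorem comb_iff {n : ℕ} (hn : 0 < n) (ρ : ℕ → (Fin n → ℂ) → ℂ)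
    (hρ : ∀ j, Differentiable ℂ (ρ j)) (h0 : ∀ (i : Fin n) z, ρ i z = z i) (l : List Pol) :
    (∀ z, evalP (fun j => ρ j z) (comb l) = 0) ↔ ∀ p ∈ l, ∀ z, evalP (fun j => ρ j z) p = 0 := by
  induction l with
  | nil => simp [comb, evalP]
  | cons p l ih =>
    have e : comb (p :: l) = csq p (comb l) := rfl
    rw [e, List.forall_mem_cons, ← ih]
    have hz : ∀ z : Fin n → ℂ, ρ 0 z = z ⟨0, hn⟩ := fun z => h0 ⟨0, hn⟩ z
    constructor
    · intro h
      have h1 := sqn ⟨0, hn⟩ (evalP_diff ρ hρ p) (evalP_diff ρ hρ (comb l)) (fun z => by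
        have h2 := h z
        rw [evalP_csq, hz] at h2
        exact sub_eq_zero.1 h2)
      exact ⟨h1.1, h1.2⟩
    · rintro ⟨h1, h2⟩ z
      rw [evalP_csq, h1 z, h2 z]
      ring

theorem solv_comb {n : ℕ} (hn : 0 < n) (l : List Pol) : Solv n [comb l] ↔ Solv n l := by
  unfold Solv
  refine exists_congr fun ρ => ?_
  refine and_congr_right fun hρ => and_congr_right fun h0 => ?_
  rw [← comb_iff hn ρ hρ h0 l]
  simp only [List.forall_mem_singleton]

/-! ### bounds -/

/-- The variables are below `N`, and each monomial contains at most `d` variables `j ≥ n`. -/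
def Bnd (n N d : ℕ) (p : Pol) : Prop :=
  ∀ mo ∈ p, (∀ j ∈ mo.2, j < N) ∧ mo.2.countP (fun j => decide (n ≤ j)) ≤ d

theorem Bnd.mono {n N N' d d' : ℕ} {p : Pol} (h : Bnd n N d p) (hN : N ≤ N') (hd : d ≤ d') :
    Bnd n N' d' p := fun mo hmo => ⟨fun j hj => lt_of_lt_of_le ((h mo hmo).1 j hj) hN,
  ((h mo hmo).2).trans hd⟩

theorem Bnd.padd {n N d : ℕ} {p q : Pol} (hp : Bnd n N d p) (hq : Bnd n N d q) :
    Bnd n N d (padd p q) := by
  intro mo hmo
  rcases List.mem_append.1 hmo with h | h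
  · exact hp mo h
  · exact hq mo h

theorem Bnd.pneg {n N d : ℕ} {p : Pol} (hp : Bnd n N d p) : Bnd n N d (pneg p) := by
  intro mo hmo
  obtain ⟨mo', h, rfl⟩ := List.mem_map.1 hmo
  exact hp mo' h

theorem Bnd.pmul {n N d e : ℕ} {p q : Pol} (hp : Bnd n N d p) (hq : Bnd n N e q) :
    Bnd n N (d + e) (pmul p q) := by
  intro mo hmo
  unfold Pool.Agent.Helper344.Ent.pmul at hmo
  rw [List.mem_flatMap] at hmo
  obtain ⟨a, ha, hmo⟩ := hmo
  obtain ⟨b, hb, rfl⟩ := List.mem_map.1 hmo
  constructor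
  · intro j hj
    rcases List.mem_append.1 hj with h | h
    · exact (hp a ha).1 j h
    · exact (hq b hb).1 j h
  · change (a.2 ++ b.2).countP _ ≤ _
    rw [List.countP_append]
    exact Nat.add_le_add (hp a ha).2 (hq b hb).2

theorem Bnd.pvar {n N : ℕ} (j : ℕ) (hj : j < N) : Bnd n N 1 (pvar j) := by
  intro mo hmo
  unfold Pool.Agent.Helper344.Ent.pvar at hmo
  rw [List.mem_singleton] at hmo
  subst hmo
  refine ⟨?_, ?_⟩
  · intro i hi
    rw [List.mem_singleton] at hi
    omega
  · exact (List.countP_le_length).trans (by simp)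

theorem Bnd.pvar0 {n N : ℕ} (hn : 0 < n) (hN : 0 < N) : Bnd n N 0 (Pool.Agent.Helper344.Ent.pvar 0) := by
  intro mo hmo
  unfold Pool.Agent.Helper344.Ent.pvar at hmo
  rw [List.mem_singleton] at hmo
  subst hmo
  refine ⟨?_, ?_⟩
  · intro i hi
    rw [List.mem_singleton] at hi
    omega
  · have : ¬ n ≤ 0 := by omega
    simp [this]

theorem Bnd.csq {n N d : ℕ} (hn : 0 < n) (hN : 0 < N) {p c : Pol} (hp : Bnd n N d p)
    (hc : Bnd n N d c) : Bnd n N (d + d) (csq p c) := by
  refine (hp.pmul hp).padd ?_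
  have h := ((Bnd.pvar0 hn hN).pmul (hc.pmul hc)).pneg
  rwa [Nat.zero_add] at h

theorem exists_bnd (n : ℕ) (p : Pol) : ∃ N d, Bnd n N d p := by
  induction p with
  | nil => exact ⟨0, 0, fun mo hmo => by simp at hmo⟩
  | cons a p ih =>
    obtain ⟨N, d, h⟩ := ih
    obtain ⟨N', hN'⟩ : ∃ N', ∀ j ∈ a.2, j < N' := by
      refine ⟨a.2.sum + 1, fun j hj => ?_⟩
      exact Nat.lt_succ_of_le (List.le_sum_of_mem hj)
    refine ⟨max N N', max d a.2.length, fun mo hmo => ?_⟩
    rcases List.mem_cons.1 hmo with rfl | hmo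
    · exact ⟨fun j hj => lt_of_lt_of_le (hN' j hj) (le_max_right _ _),
        (List.countP_le_length).trans (le_max_right _ _)⟩
    · exact (h.mono (le_max_left _ _) (le_max_left _ _)) mo hmo

/-! ### computability -/

theorem prim_padd : Primrec₂ padd := Primrec.list_append

theorem prim_pneg : Primrec pneg := by
  unfold pneg
  exact Primrec.list_map Primrec.id
    (Primrec.pair (prim_neg.comp (Primrec.fst.comp Primrec.snd))
      (Primrec.snd.comp Primrec.snd)).to₂

theorem prim_pmul : Primrec₂ pmul := by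
  unfold pmul
  refine Primrec.list_flatMap (f := fun x : Pol × Pol => x.1) Primrec.fst ?_
  refine Primrec.list_map (Primrec.snd.comp Primrec.fst) ?_
  have h1 : Primrec (fun y : ((Pol × Pol) × (ℤ × List ℕ)) × (ℤ × List ℕ) => y.1.2) :=
    Primrec.snd.comp Primrec.fst
  have h2 : Primrec (fun y : ((Pol × Pol) × (ℤ × List ℕ)) × (ℤ × List ℕ) => y.2) := Primrec.snd
  exact Primrec.pair (prim_mul.comp (Primrec.fst.comp h1) (Primrec.fst.comp h2))
    (Primrec.list_append.comp (Primrec.snd.comp h1) (Primrec.snd.comp h2))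

theorem prim_csq : Primrec₂ csq := by
  unfold csq
  have h1 : Primrec (fun x : Pol × Pol => x.1) := Primrec.fst
  have h2 : Primrec (fun x : Pol × Pol => x.2) := Primrec.snd
  exact prim_padd.comp (prim_pmul.comp h1 h1)
    (prim_pneg.comp (prim_pmul.comp (Primrec.const _) (prim_pmul.comp h2 h2)))

end Pool.Agent.Y926.Ent
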