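import Pool.Agent.Y926.Ent.Param
import Pool.Agent.Y926.Ent.Comb
import Pool.Agent.Y926.CE.Re

/-!
# One equation with a parameter
-/

set_option autoImplicit false

namespace Pool.Agent.Y926.Ent

open Pool.Agent.Helper344.Ent

theorem prim_cst : Primrec cst := by
  unfold cst
  exact Primrec.pair (prim_pneg.comp Primrec.snd)
    (prim_padd.comp Primrec.fst (prim_pmul.comp (Primrec.const _) Primrec.snd))

theorem prim_chb : Primrec chb := by
  unfold chb
  exact Primrec.nat_iterate Primrec.id (Primrec.const _) (prim_cst.comp Primrec.snd).to₂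

/-- the polynomial with parameter `m` -/
def eqn (n : ℕ) (c0 : Pol) (m : ℕ) : Pol :=
  csq (padd (pvar n) (pneg (chb (4 * m)).1)) (csq (padd (pvar (n + 2)) (pneg (chb (4 * m)).2))
    (csq (pvar (n + 4)) (csq (pvar (n + 6)) c0)))

theorem comb_sysm (n : ℕ) (D : List (ℕ × ℕ × ℕ × ℕ)) (m : ℕ) :
    comb (sysm n D m) = eqn n (comb (tr n D)) m := rfl

theorem prim_eqn (n : ℕ) (c0 : Pol) : Primrec (eqn n c0) := by
  unfold eqn
  have h4 : Primrec (fun m : ℕ => chb (4 * m)) :=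
    prim_chb.comp (Primrec.nat_mul.comp (Primrec.const 4) Primrec.id)
  exact prim_csq.comp
    (prim_padd.comp (Primrec.const _) (prim_pneg.comp (Primrec.fst.comp h4)))
    (prim_csq.comp (prim_padd.comp (Primrec.const _) (prim_pneg.comp (Primrec.snd.comp h4)))
      (Primrec.const _))

theorem bnd_chb {n N : ℕ} (hn : 0 < n) (hN : 0 < N) (k : ℕ) :
    Bnd n N 0 (chb k).1 ∧ Bnd n N 0 (chb k).2 := by
  induction k with
  | zero =>
    constructor
    · intro mo hmo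
      change mo ∈ pone at hmo
      unfold pone at hmo
      rw [List.mem_singleton] at hmo
      subst hmo
      simp
    · intro mo hmo
      change mo ∈ [] at hmo
      simp at hmo
  | succ k ih =>
    rw [chb_succ]
    exact ⟨ih.2.pneg, ih.1.padd ((Bnd.pvar0 hn hN).pmul ih.2)⟩

theorem bnd_eqn {n : ℕ} (hn : 0 < n) (c0 : Pol) : ∃ N d, ∀ m, Bnd n N d (eqn n c0 m) := by
  obtain ⟨N0, d0, h0⟩ := exists_bnd n c0
  set N := max N0 (n + 7) with hN
  set d := max 1 d0 with hd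
  have hNn : n + 7 ≤ N := le_max_right _ _
  have hc : Bnd n N d c0 := h0.mono (le_max_left _ _) (le_max_right _ _)
  have hv : ∀ j, j < n + 7 → Bnd n N d (pvar j) := fun j hj =>
    (Bnd.pvar j (by omega)).mono le_rfl (le_max_left _ _)
  have hq : ∀ j k, j < n + 7 → Bnd n N d (padd (pvar j) (pneg (chb k).1)) ∧
      Bnd n N d (padd (pvar j) (pneg (chb k).2)) := by
    intro j k hj
    have h := bnd_chb (n := n) (N := N) hn (by omega) k
    exact ⟨(hv j hj).padd (h.1.pneg.mono le_rfl (Nat.zero_le _)),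
      (hv j hj).padd (h.2.pneg.mono le_rfl (Nat.zero_le _))⟩
  have hN0 : 0 < N := by omega
  refine ⟨N, ((d + d) + (d + d)) + ((d + d) + (d + d)) +
    (((d + d) + (d + d)) + ((d + d) + (d + d))), fun m => ?_⟩
  have e4 := Bnd.csq hn hN0 (hv (n + 6) (by omega)) hc
  have e3 := Bnd.csq hn hN0 ((hv (n + 4) (by omega)).mono le_rfl (by omega : d ≤ d + d)) e4
  have e2 := Bnd.csq hn hN0 ((hq (n + 2) (4 * m) (by omega)).2.mono le_rfl
    (by omega : d ≤ (d + d) + (d + d))) e3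
  exact Bnd.csq hn hN0 ((hq n (4 * m) (by omega)).1.mono le_rfl
    (by omega : d ≤ ((d + d) + (d + d)) + ((d + d) + (d + d)))) e2

theorem vars_csq {n : ℕ} {p c : Pol} (hp : ∀ mo ∈ p, ∀ j ∈ mo.2, j < 2 ∨ n ≤ j)
    (hc : ∀ mo ∈ c, ∀ j ∈ mo.2, j < 2 ∨ n ≤ j) :
    ∀ mo ∈ csq p c, ∀ j ∈ mo.2, j < 2 ∨ n ≤ j := by
  have hmul : ∀ p q : Pol, (∀ mo ∈ p, ∀ j ∈ mo.2, j < 2 ∨ n ≤ j) →
      (∀ mo ∈ q, ∀ j ∈ mo.2, j < 2 ∨ n ≤ j) → ∀ mo ∈ pmul p q, ∀ j ∈ mo.2, j < 2 ∨ n ≤ j := by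
    intro p q hp hq mo hmo j hj
    unfold pmul at hmo
    rw [List.mem_flatMap] at hmo
    obtain ⟨a, ha, hmo⟩ := hmo
    obtain ⟨b, hb, rfl⟩ := List.mem_map.1 hmo
    rcases List.mem_append.1 hj with h | h
    · exact hp a ha j h
    · exact hq b hb j h
  have hneg : ∀ p : Pol, (∀ mo ∈ p, ∀ j ∈ mo.2, j < 2 ∨ n ≤ j) →
      ∀ mo ∈ pneg p, ∀ j ∈ mo.2, j < 2 ∨ n ≤ j := by
    intro p hp mo hmo j hj
    obtain ⟨mo', h, rfl⟩ := List.mem_map.1 hmo
    exact hp mo' h j hj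
  have hv0 : ∀ mo ∈ pvar 0, ∀ j ∈ mo.2, j < 2 ∨ n ≤ j := by
    intro mo hmo j hj
    unfold pvar at hmo
    rw [List.mem_singleton] at hmo
    subst hmo
    rw [List.mem_singleton] at hj
    left; omega
  intro mo hmo
  unfold csq at hmo
  rcases List.mem_append.1 hmo with h | h
  · exact hmul p p hp hp mo h
  · exact hneg _ (hmul _ _ hv0 (hmul c c hc hc)) mo h

theorem vars_comb {n : ℕ} (l : List Pol) (h : ∀ p ∈ l, ∀ mo ∈ p, ∀ j ∈ mo.2, j < 2 ∨ n ≤ j) :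
    ∀ mo ∈ comb l, ∀ j ∈ mo.2, j < 2 ∨ n ≤ j := by
  induction l with
  | nil => intro mo hmo; simp [comb] at hmo
  | cons p l ih =>
    have e : comb (p :: l) = csq p (comb l) := rfl
    rw [e]
    exact vars_csq (h p (by simp)) (ih fun q hq => h q (by simp [hq]))

/-- **One equation with a parameter.** -/
theorem one_equation {n : ℕ} (hn : 2 ≤ n) {p : ℕ → Prop} (hp : REPred p) :
    ∃ (N d : ℕ) (P : ℕ → Pol), Primrec P ∧ (∀ m, Bnd n N d (P m)) ∧
      (∀ m, ∀ mo ∈ P m, ∀ j ∈ mo.2, j < 2 ∨ n ≤ j) ∧ ∀ m, p m ↔ Solv n [P m] := by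
  obtain ⟨D, M, _, hD⟩ := fixed_constr hp
  obtain ⟨N, d, hb⟩ := bnd_eqn (n := n) (by omega) (comb (tr n D))
  refine ⟨N, d, eqn n (comb (tr n D)), prim_eqn n _, hb, ?_, ?_⟩
  · intro m
    rw [← comb_sysm]
    exact vars_comb _ (sysm_vars n m hn D)
  · intro m
    rw [← comb_sysm, solv_comb (by omega), hD m]
    exact ⟨fun ⟨x, h1, h2⟩ => fwd_param hn D m x h1 h2, bwd_param hn D m⟩

end Pool.Agent.Y926.Ent
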