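import Pool.Agent.Helper344.Ent.P_forward
import Pool.Agent.Helper344.Ent.P_backward
import Pool.Agent.Helper344.Ent.P_EV_inj
import Pool.Agent.Helper344.Ent.P_evalP_cont
import Pool.Agent.Helper344.Ent.P_evalP_ops
import Pool.Agent.Helper344.Ent.P_Wind2_sp
import Pool.Agent.Helper344.Ent.P_fixed_constr

/-!
# A fixed system with one parameter
-/

set_option autoImplicit false

namespace Pool.Agent.Y926.Ent

open Pool.Agent.Helper344.Ent
open Complex

/-- multiplication by `s` in the basis `1, s` (variable `0` is `s + 1/s`) -/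
def cst (q : Pol × Pol) : Pol × Pol := (pneg q.2, padd q.1 (pmul (pvar 0) q.2))

/-- the coordinates of `s ^ k` -/
def chb (k : ℕ) : Pol × Pol := cst^[k] (pone, [])

theorem chb_succ (k : ℕ) : chb (k + 1) = cst (chb k) := Function.iterate_succ_apply' _ _ _

theorem chb_eval (ρ : ℕ → ℂ) {s : ℂ} (hs : s ≠ 0) (h : ρ 0 = s + s⁻¹) (k : ℕ) :
    evalP ρ (chb k).1 + evalP ρ (chb k).2 * s = s ^ k := by
  induction k with
  | zero =>
    change evalP ρ pone + evalP ρ [] * s = s ^ 0
    simp [evalP, pone]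
  | succ k ih =>
    rw [chb_succ, pow_succ, ← ih]
    have e := evalP_ops ρ (chb k).1 (pmul (pvar 0) (chb k).2) 0
    have e2 := evalP_ops ρ (pvar 0) (chb k).2 0
    have e3 := evalP_ops ρ (chb k).2 [] 0
    unfold cst
    simp only
    rw [e.1, e3.2.1, e2.2.2.1, e.2.2.2.1, h]
    field_simp
    ring

/-- the varying equations -/
def vary (n m : ℕ) : List Pol :=
  [padd (pvar n) (pneg (chb (4 * m)).1), padd (pvar (n + 2)) (pneg (chb (4 * m)).2),
    pvar (n + 4), pvar (n + 6)]

/-- the system with parameter `m` -/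
def sysm (n : ℕ) (D : List (ℕ × ℕ × ℕ × ℕ)) (m : ℕ) : List Pol := vary n m ++ tr n D

theorem evalP_vary (ρ : ℕ → ℂ) (n m : ℕ) : (∀ p ∈ vary n m, evalP ρ p = 0) ↔
    ρ n = evalP ρ (chb (4 * m)).1 ∧ ρ (n + 2) = evalP ρ (chb (4 * m)).2 ∧ ρ (n + 4) = 0 ∧
      ρ (n + 6) = 0 := by
  have e1 : evalP ρ (padd (pvar n) (pneg (chb (4 * m)).1)) = ρ n - evalP ρ (chb (4 * m)).1 := by
    rw [(evalP_ops ρ (pvar n) (pneg (chb (4 * m)).1) n).1,
      (evalP_ops ρ (chb (4 * m)).1 [] n).2.1, (evalP_ops ρ [] [] n).2.2.2.1, sub_eq_add_neg]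
  have e2 : evalP ρ (padd (pvar (n + 2)) (pneg (chb (4 * m)).2)) =
      ρ (n + 2) - evalP ρ (chb (4 * m)).2 := by
    rw [(evalP_ops ρ (pvar (n + 2)) (pneg (chb (4 * m)).2) n).1,
      (evalP_ops ρ (chb (4 * m)).2 [] n).2.1, (evalP_ops ρ [] [] (n + 2)).2.2.2.1,
      sub_eq_add_neg]
  have e3 : ∀ j, evalP ρ (pvar j) = ρ j := fun j => (evalP_ops ρ [] [] j).2.2.2.1
  unfold vary
  simp only [List.forall_mem_cons, List.not_mem_nil, false_imp_iff, implies_true, and_true,
    e1, e2, e3, sub_eq_zero]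

theorem vary_vars (n m : ℕ) (hn : 2 ≤ n) :
    (∀ mo ∈ (chb (4 * m)).1, ∀ j ∈ mo.2, j = 0) → (∀ mo ∈ (chb (4 * m)).2, ∀ j ∈ mo.2, j = 0) →
    ∀ p ∈ vary n m, ∀ mo ∈ p, ∀ j ∈ mo.2, j < 2 ∨ n ≤ j := by
  intro h1 h2 p hp mo hmo j hj
  unfold vary at hp
  simp only [List.mem_cons, List.not_mem_nil, or_false] at hp
  have hpn : ∀ q : Pol, (∀ mo ∈ q, ∀ j ∈ mo.2, j = 0) → ∀ mo ∈ pneg q, ∀ j ∈ mo.2, j = 0 := by
    intro q hq mo hmo j hj
    unfold pneg at hmo
    obtain ⟨mo', hmo', rfl⟩ := List.mem_map.1 hmo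
    exact hq mo' hmo' j hj
  have hv : ∀ k, n ≤ k → ∀ mo ∈ pvar k, ∀ j ∈ mo.2, j < 2 ∨ n ≤ j := by
    intro k hk mo hmo j hj
    unfold pvar at hmo
    rw [List.mem_singleton] at hmo
    subst hmo
    rw [List.mem_singleton] at hj
    right; omega
  rcases hp with rfl | rfl | rfl | rfl
  · unfold padd at hmo
    rcases List.mem_append.1 hmo with h | h
    · exact hv n le_rfl mo h j hj
    · left; rw [hpn _ h1 mo h j hj]; norm_num
  · unfold padd at hmo
    rcases List.mem_append.1 hmo with h | h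
    · exact hv (n + 2) (by omega) mo h j hj
    · left; rw [hpn _ h2 mo h j hj]; norm_num
  · exact hv (n + 4) (by omega) mo hmo j hj
  · exact hv (n + 6) (by omega) mo hmo j hj

/-- `chb k` involves only the variable `0` -/
theorem chb_vars (k : ℕ) : (∀ mo ∈ (chb k).1, ∀ j ∈ mo.2, j = 0) ∧
    ∀ mo ∈ (chb k).2, ∀ j ∈ mo.2, j = 0 := by
  induction k with
  | zero =>
    constructor
    · intro mo hmo j hj
      change mo ∈ pone at hmo
      unfold pone at hmo
      rw [List.mem_singleton] at hmo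
      subst hmo
      simp at hj
    · intro mo hmo
      change mo ∈ [] at hmo
      simp at hmo
  | succ k ih =>
    rw [chb_succ]
    unfold cst
    constructor
    · intro mo hmo j hj
      change mo ∈ pneg (chb k).2 at hmo
      unfold pneg at hmo
      obtain ⟨mo', hmo', rfl⟩ := List.mem_map.1 hmo
      exact ih.2 mo' hmo' j hj
    · intro mo hmo j hj
      change mo ∈ padd (chb k).1 (pmul (pvar 0) (chb k).2) at hmo
      unfold padd at hmo
      rcases List.mem_append.1 hmo with h | h
      · exact ih.1 mo h j hj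
      · unfold pmul pvar at h
        simp only [List.flatMap_cons, List.flatMap_nil, List.append_nil, List.mem_map] at h
        obtain ⟨k', hk', rfl⟩ := h
        rcases List.mem_append.1 hj with h' | h'
        · simpa using h'
        · exact ih.2 k' hk' j h'

theorem sysm_vars (n m : ℕ) (hn : 2 ≤ n) (D : List (ℕ × ℕ × ℕ × ℕ)) :
    ∀ p ∈ sysm n D m, ∀ mo ∈ p, ∀ j ∈ mo.2, j < 2 ∨ n ≤ j := by
  intro p hp
  rcases List.mem_append.1 hp with h | h
  · exact vary_vars n m hn (chb_vars _).1 (chb_vars _).2 p h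
  · exact tr_vars n D p h

/-- the unit `s ^ (4 m)` from the coordinates -/
theorem EV_chb (ρ : ℕ → ℂ × ℂ → ℂ) (h0 : ∀ y, ρ 0 y = y.1) (m : ℕ) (x : ℂ × ℂ) :
    EV (![fun y => evalP (fun j => ρ j y) (chb (4 * m)).1,
      fun y => evalP (fun j => ρ j y) (chb (4 * m)).2, fun _ => 0, fun _ => 0]) x =
      sp (m : ℤ) x := by
  unfold EV
  simp only [Matrix.cons_val_zero, Matrix.cons_val_one, Matrix.cons_val, zero_mul, add_zero]
  have hs : sv x.1 ≠ 0 := by unfold sv; exact Complex.exp_ne_zero _
  rw [chb_eval _ hs (h0 _)]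
  unfold sv sp
  rw [← Complex.exp_nat_mul]
  congr 1
  push_cast
  ring

theorem bwd_param {n : ℕ} (hn : 2 ≤ n) (D : List (ℕ × ℕ × ℕ × ℕ)) (m : ℕ)
    (h : Solv n (sysm n D m)) : ∃ x : ℕ → ℤ, x 0 = m ∧ ∀ c ∈ D, sat x c := by
  classical
  obtain ⟨ρ, hρ, hρ0, hρ1, hρs⟩ := solv_fwd hn _ h
  set U : ℕ → ℂ × ℂ → ℂ := fun i => EV (fun r : Fin 4 => ρ (n + 2 * (4 * i + (r : ℕ)))) with hU
  set x : ℕ → ℤ := fun i =>
    if h : ∃ a : ℤ, Wind2 (res (U i)) (4 * a) then h.choose else 0 with hx
  have hxa : ∀ i (a : ℤ), Wind2 (res (U i)) (4 * a) → x i = a := by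
    intro i a ha
    have hex : ∃ a : ℤ, Wind2 (res (U i)) (4 * a) := ⟨a, ha⟩
    have h1 : x i = hex.choose := by
      show (if h : ∃ a : ℤ, Wind2 (res (U i)) (4 * a) then h.choose else 0) = _
      rw [dif_pos hex]
    have h2 := Wind2_unique ha hex.choose_spec
    rw [h1]
    omega
  refine ⟨x, ?_, fun c hc => ?_⟩
  · refine hxa 0 m ?_
    have hv : ∀ y, ρ n y = evalP (fun j => ρ j y) (chb (4 * m)).1 ∧
        ρ (n + 2) y = evalP (fun j => ρ j y) (chb (4 * m)).2 ∧ ρ (n + 4) y = 0 ∧
        ρ (n + 6) y = 0 := by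
      intro y
      rw [← evalP_vary (fun j => ρ j y)]
      exact fun p hp => hρs p (List.mem_append_left _ hp) y
    have hU0 : U 0 = sp (m : ℤ) := by
      funext y
      rw [← EV_chb ρ hρ0 m y]
      change EV (fun r : Fin 4 => ρ (n + 2 * (4 * 0 + (r : ℕ)))) y = _
      congr 1
      funext r
      fin_cases r
      · funext z; exact (hv z).1
      · funext z; exact (hv z).2.1
      · funext z; exact (hv z).2.2.1
      · funext z; exact (hv z).2.2.2
    rw [hU0]
    exact Wind2_sp m
  have hcodes : ∀ p ∈ codes (tT c.1), ∀ y, evalP (fun i => ρ (ren n c i) y) p = 0 := by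
    intro p hp y
    have hmem : (p.map fun mo => (mo.1, mo.2.map (ren n c))) ∈ sysm n D m := by
      refine List.mem_append_right _ ?_
      unfold tr
      rw [List.mem_flatMap]
      refine ⟨c, hc, ?_⟩
      rw [List.mem_map]
      exact ⟨p, hp, rfl⟩
    have h1 := hρs _ hmem y
    rw [evalP_ren (fun j => ρ j y) (ren n c) p] at h1
    exact h1
  have hsat := (codes_iff (fun m => ρ (ren n c m))
    (fun y => by
      have : ren n c 0 = 0 := by unfold ren; rw [if_pos (by omega)]
      show ρ (ren n c 0) y = y.1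
      rw [this]; exact hρ0 y)
    (fun y => by
      have : ren n c 1 = 1 := by unfold ren; rw [if_pos (by omega)]
      show ρ (ren n c 1) y = y.2
      rw [this]; exact hρ1 y)
    (fun j => (hρ _).continuous) (tT c.1)).mp hcodes
  have hHol : ∀ j : ℕ, Hol (EV fun r : Fin 4 => ρ (ren n c (2 + 4 * j + (r : ℕ)))) :=
    fun j => EV_hol (fun r => hρ _)
  have hloc := bwd_local (fun j => EV fun r : Fin 4 => ρ (ren n c (2 + 4 * j + (r : ℕ))))
    (fun j => (hHol j).1.continuous) (fun j z t => (hHol j).2 z t) c.1 hsat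
  have w0 : (EV fun r : Fin 4 => ρ (ren n c (2 + 4 * 0 + (r : ℕ)))) = U c.2.1 := by
    rw [hU]
    simp only [backward_ren0]
  have w1 : (EV fun r : Fin 4 => ρ (ren n c (2 + 4 * 1 + (r : ℕ)))) = U c.2.2.1 := by
    rw [hU]
    simp only [backward_ren1]
  have w2 : (EV fun r : Fin 4 => ρ (ren n c (2 + 4 * 2 + (r : ℕ)))) = U c.2.2.2 := by
    rw [hU]
    simp only [backward_ren2]
  simp only [w0, w1, w2] at hloc
  obtain ⟨l0, l1, l2⟩ := hloc
  unfold sat
  by_cases hk0 : c.1 = 0
  · rw [if_pos hk0]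
    exact hxa _ 1 (l0 hk0)
  · rw [if_neg hk0]
    by_cases hk1 : c.1 = 1
    · rw [if_pos hk1]
      obtain ⟨a, b, ha, hb, hab⟩ := l1 hk1
      rw [hxa _ a ha, hxa _ b hb, hxa _ _ hab]
    · rw [if_neg hk1]
      obtain ⟨a, b, ha, hb, hab⟩ := l2 hk0 hk1
      rw [hxa _ a ha, hxa _ b hb, hxa _ _ hab]

theorem fwd_param {n : ℕ} (hn : 2 ≤ n) (C : List (ℕ × ℕ × ℕ × ℕ)) (m : ℕ) (x : ℕ → ℤ)
    (hx0 : x 0 = m) (hx : ∀ c ∈ C, sat x c) : Solv n (sysm n C m) := by
  classical
  have hdex : ∀ k : ℤ, ∃ f : Fin 4 → ℂ × ℂ → ℂ, (∀ i, Differentiable ℂ (f i)) ∧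
      ∀ y, EV f y = sp k y := fun k => decomp (forward_sp_hol k)
  choose d hd hdE using hdex
  have hWex : ∀ c : ℕ × ℕ × ℕ × ℕ, ∃ w : ℕ → ℂ × ℂ → ℂ, (∀ j, Hol (w j)) ∧
      (sat x c → (w 0 = sp (x c.2.1) ∧ w 1 = sp (x c.2.2.1) ∧
      w 2 = sp (x c.2.2.2) ∧ SatF w (tT c.1))) := by
    intro c
    by_cases hc : sat x c
    · obtain ⟨w, hw, hr⟩ := fwd_local x c hc
      exact ⟨w, hw, fun _ => hr⟩
    · exact ⟨fun _ _ => 0, fun _ => forward_zero_hol, fun h => absurd h hc⟩
  choose W hW hWs using hWex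
  have hDex : ∀ (c : ℕ × ℕ × ℕ × ℕ) (j : ℕ), ∃ f : Fin 4 → ℂ × ℂ → ℂ,
      (∀ i, Differentiable ℂ (f i)) ∧ ∀ y, EV f y = W c j y := fun c j => decomp (hW c j)
  choose D hD hDE using hDex
  have hr0 : ∀ y, forward_rho n x d D 0 y = y.1 := by
    intro y
    unfold forward_rho
    rw [if_pos rfl]
  have hr1 : ∀ y, forward_rho n x d D 1 y = y.2 := by
    intro y
    unfold forward_rho
    rw [if_neg (by norm_num), if_pos rfl]
  have hcont : ∀ j, Continuous (forward_rho n x d D j) := fun j =>
    (forward_rho_diff n x d D hd hD j).continuous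
  apply solv_bwd hn (sysm n C m) (sysm_vars n m hn C) (forward_rho n x d D)
    (forward_rho_diff n x d D hd hD) hr0 hr1
  intro p hp y
  rcases List.mem_append.1 hp with hp | hp
  · -- the varying equations
    set G : Fin 4 → ℂ × ℂ → ℂ :=
      ![fun y => evalP (fun j => forward_rho n x d D j y) (chb (4 * m)).1,
        fun y => evalP (fun j => forward_rho n x d D j y) (chb (4 * m)).2, fun _ => 0,
        fun _ => 0] with hG
    have hGc : ∀ i, Continuous (G i) := by
      intro i
      fin_cases i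
      · exact evalP_cont _ hcont _
      · exact evalP_cont _ hcont _
      · exact continuous_const
      · exact continuous_const
    have hdG : ∀ i z, d (x 0) i z - G i z = 0 := by
      refine EV_inj (f := fun i z => d (x 0) i z - G i z)
        (fun i => (hd _ i).continuous.sub (hGc i)) ?_
      intro z
      have e1 := hdE (x 0) z
      have e2 := EV_chb (forward_rho n x d D) hr0 m z
      rw [← hG] at e2
      have e3 : EV (fun i z => d (x 0) i z - G i z) z = EV (d (x 0)) z - EV G z := by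
        unfold EV
        ring
      rw [e3, e1, e2, hx0, sub_self]
    have hev : ∀ (r : Fin 4), forward_rho n x d D (n + 2 * (4 * 0 + (r : ℕ))) y = G r y := by
      intro r
      rw [forward_rho_even hn]
      have := hdG r y
      exact sub_eq_zero.1 this
    have key := (evalP_vary (fun j => forward_rho n x d D j y) n m).2
      ⟨hev 0, hev 1, hev 2, hev 3⟩
    exact key p hp
  · unfold tr at hp
    rw [List.mem_flatMap] at hp
    obtain ⟨c, hcC, hp⟩ := hp
    rw [List.mem_map] at hp
    obtain ⟨p', hp', rfl⟩ := hp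
    rw [evalP_ren]
    have hs := hx c hcC
    obtain ⟨hw0, hw1, hw2, hwS⟩ := hWs c hs
    have key : (fun j => EV fun r : Fin 4 => (fun m => forward_rho n x d D (ren n c m))
        (2 + 4 * j + (r : ℕ))) = W c := by
      funext j
      rcases j with _ | _ | _ | j
      · rw [hw0]
        funext y
        rw [← hdE]
        have : (fun r : Fin 4 => (fun m => forward_rho n x d D (ren n c m))
            (2 + 4 * 0 + (r : ℕ))) = d (x c.2.1) := by
          funext r
          have hr := r.2
          show forward_rho n x d D (ren n c (2 + 4 * 0 + (r : ℕ))) = _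
          have h1 : ren n c (2 + 4 * 0 + (r : ℕ)) = n + 2 * (4 * c.2.1 + (r : ℕ)) := by
            unfold ren
            rw [if_neg (by omega), if_pos (by omega)]
            congr 3
            omega
          rw [h1, forward_rho_even hn]
        rw [this]
      · rw [hw1]
        funext y
        rw [← hdE]
        have : (fun r : Fin 4 => (fun m => forward_rho n x d D (ren n c m))
            (2 + 4 * (0 + 1) + (r : ℕ))) = d (x c.2.2.1) := by
          funext r
          have hr := r.2
          show forward_rho n x d D (ren n c (2 + 4 * (0 + 1) + (r : ℕ))) = _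
          have h1 : ren n c (2 + 4 * (0 + 1) + (r : ℕ)) = n + 2 * (4 * c.2.2.1 + (r : ℕ)) := by
            unfold ren
            rw [if_neg (by omega), if_neg (by omega), if_pos (by omega)]
            congr 3
            omega
          rw [h1, forward_rho_even hn]
        rw [this]
      · rw [hw2]
        funext y
        rw [← hdE]
        have : (fun r : Fin 4 => (fun m => forward_rho n x d D (ren n c m))
            (2 + 4 * (0 + 1 + 1) + (r : ℕ))) = d (x c.2.2.2) := by
          funext r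
          have hr := r.2
          show forward_rho n x d D (ren n c (2 + 4 * (0 + 1 + 1) + (r : ℕ))) = _
          have h1 : ren n c (2 + 4 * (0 + 1 + 1) + (r : ℕ)) = n + 2 * (4 * c.2.2.2 + (r : ℕ)) := by
            unfold ren
            rw [if_neg (by omega), if_neg (by omega), if_neg (by omega), if_pos (by omega)]
            congr 3
            omega
          rw [h1, forward_rho_even hn]
        rw [this]
      · funext y
        rw [← hDE]
        have : (fun r : Fin 4 => (fun m => forward_rho n x d D (ren n c m))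
            (2 + 4 * (j + 1 + 1 + 1) + (r : ℕ))) = D c (j + 1 + 1 + 1) := by
          funext r
          have hr := r.2
          show forward_rho n x d D (ren n c (2 + 4 * (j + 1 + 1 + 1) + (r : ℕ))) = _
          have h1 : ren n c (2 + 4 * (j + 1 + 1 + 1) + (r : ℕ)) =
              n + 2 * Nat.pair (Nat.pair c.1 (Nat.pair c.2.1 (Nat.pair c.2.2.1 c.2.2.2)))
                (2 + 4 * (j + 1 + 1 + 1) + (r : ℕ)) + 1 := by
            unfold ren
            rw [if_neg (by omega), if_neg (by omega), if_neg (by omega), if_neg (by omega)]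
          rw [h1, forward_rho_odd hn]
        rw [this]
    have hall := (codes_iff (fun m => forward_rho n x d D (ren n c m)) (by
        intro y
        show forward_rho n x d D (ren n c 0) y = y.1
        have : ren n c 0 = 0 := by unfold ren; rw [if_pos (by norm_num)]
        rw [this]
        exact hr0 y) (by
        intro y
        show forward_rho n x d D (ren n c 1) y = y.2
        have : ren n c 1 = 1 := by unfold ren; rw [if_pos (by norm_num)]
        rw [this]
        exact hr1 y)
        (fun j => (forward_rho_diff n x d D hd hD _).continuous) (tT c.1)).mpr (by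
          rw [key]; exact hwS)
    exact hall p' hp' y

end Pool.Agent.Y926.Ent
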